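import Pool.Agent.Lib.MP_87c4bd_co.Upper

set_option autoImplicit false

open MeasureTheory Pool.Agent.Lib.MP_87c4bd_co

namespace Pool.Agent.Results.MP_87c4bd_co.UpperEqFull

universe u

/-- For every probability space `(Ω, π)`, every family `I` of measurable sets and every
`0 < λ < 1`, the upper covering entropy equals `H_full`, the infimum of `φ_π` over the functions
induced by compatible probability measures on `I`. -/
theorem result {Ω : Type u} [MeasurableSpace Ω] (π : Measure Ω) [IsProbabilityMeasure π]
    (I : Set (Set Ω)) (hI : ∀ J ∈ I, MeasurableSet J) (lam : ℝ) (h0 : 0 < lam) (h1 : lam < 1) :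
    upperH I π lam = Hfull I π :=
  le_antisymm (upperH_le_Hfull π hI h0)
    ((Hfull_le_lowerH π hI h1).trans (lowerH_le_upperH π I lam))

end Pool.Agent.Results.MP_87c4bd_co.UpperEqFull
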